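import Mathlib

set_option autoImplicit false

namespace Pool.Agent.Results.MP_f0ff61_co.Counter

abbrev V (r : ℕ) : Type := Fin r → ZMod 2

def IsGen {r : ℕ} (M : List (V r)) : Prop :=
  0 ∉ M ∧ Submodule.span (ZMod 2) {v | v ∈ M} = ⊤

def mgcd {r : ℕ} (M : List (V r)) : ℕ := Finset.univ.gcd fun v => M.count v

def lap {r : ℕ} (M : List (V r)) : Matrix (V r) (V r) ℤ := fun u w =>
  if u = w then (M.length : ℤ) else -((M.countP fun v => u + v = w : ℕ) : ℤ)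

def eig {r : ℕ} (M : List (V r)) (u : V r) : ℕ := 2 * M.countP fun v => u ⬝ᵥ v = 1

abbrev Coker {r : ℕ} (M : List (V r)) : Type :=
  (V r → ℤ) ⧸ LinearMap.range (lap M).mulVecLin

abbrev K {r : ℕ} (M : List (V r)) : Type := AddCommGroup.torsion (Coker M)

def vec (k : ℕ) : V 3 := ![(k % 2 : ℕ), (k / 2 % 2 : ℕ), (k / 4 : ℕ)]

def ix (u : V 3) : ℕ := (u 0).val + 2 * (u 1).val + 4 * (u 2).val

def tb (l : List ℤ) (u : V 3) : ℤ := l.getD (ix u) 0

def A : List (V 3) := [1, 2, 3, 4, 5, 6, 7, 7, 7].map vec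

def B : List (V 3) := [1, 2, 3, 4, 4, 6, 6, 7, 7].map vec

def al : V 3 → ℤ := tb [0, 1, 0, 1, 1, 0, 1, 0]
def be : V 3 → ℤ := tb [0, 0, 1, 1, 1, 1, 0, 0]
def e0 : V 3 → ℤ := tb [1, 0, 0, 0, 0, 0, 0, 0]
def E1 : V 3 → ℤ := tb [-1, 1, 0, 0, 0, 0, 0, 0]
def E2 : V 3 → ℤ := tb [-1, 0, 1, 0, 0, 0, 0, 0]
def p1 : V 3 → ℤ := tb [0, 10, 5, 5, 5, 5, 6, 4]
def p2 : V 3 → ℤ := tb [0, 5, 10, 5, 5, 6, 5, 4]
def Y (u : V 3) : V 3 → ℤ := tb ([[], [], [], [0, -5, -5, 0, -2, -3, -3, -2],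
  [0, -5, -5, -2, 0, -3, -3, -2], [0, 0, -2, 0, 0, 2, 0, 0], [0, -2, 0, 0, 0, 0, 2, 0],
  [0, 2, 2, 2, 2, 2, 2, 4]].getD (ix u) [])
def Z (u : V 3) : V 3 → ℤ := tb ([[], [0, 10, 5, 5, 4, 6, 5, 5], [0, 5, 10, 5, 5, 6, 5, 4],
  [0, 5, 5, 10, 5, 6, 4, 5], [0, 4, 5, 5, 9, 5, 4, 4], [0, 6, 6, 6, 5, 11, 5, 5],
  [0, 5, 5, 4, 4, 5, 9, 4], [0, 5, 4, 5, 4, 5, 4, 9]].getD (ix u) [])
def F (j : Fin 3) : V 3 → ℤ := tb (![[43, 1, 19, 43, 18, 0, 0, 0], [44, 0, 1, 1, 5, 1, 0, 0],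
  [0, 1, 5, 0, 44, 1, 1, 0]] j)
def z (u : V 3) : V 3 → ℤ := fun w => (if w = u then 1 else 0) - e0 w

lemma hI : ∀ w u, ∑ k, lap A w k * Y u k =
    24 * (if w = u then 1 else 0) - 24 * e0 w - 24 * E1 w * al u - 24 * E2 w * be u := by
  decide +kernel
lemma hp : ∀ w, ∑ k, lap A w k * p1 k = 48 * E1 w ∧ ∑ k, lap A w k * p2 k = 48 * E2 w := by
  decide +kernel
lemma hc : ∀ k, ∑ w, lap A w k = 0 := by decide +kernel
lemma hZ : ∀ u w, ∑ k, lap B w k * Z u k = 48 * z u w := by decide +kernel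
lemma hF : ∀ j k, (48 : ℤ) ∣ ∑ w, F j w * lap B w k := by decide +kernel
lemma hz : ∀ u u', u ≠ u' → ∃ j, ¬ (48 : ℤ) ∣ ∑ w, F j w * (24 * (z u w - z u' w)) := by
  decide +kernel

lemma sum0 (x : V 3 → ℤ) (h : IsOfFinAddOrder (Submodule.Quotient.mk x : Coker A)) :
    ∑ w, x w = 0 := by
  obtain ⟨n, hn, h⟩ := isOfFinAddOrder_iff_nsmul_eq_zero.1 h
  rw [← Submodule.Quotient.mk_smul, Submodule.Quotient.mk_eq_zero] at h
  obtain ⟨y, hy⟩ := h
  have : ∑ w, (n • x) w = 0 := by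
    rw [← hy]
    simp only [Matrix.mulVecLin_apply, Matrix.mulVec, dotProduct]
    rw [Finset.sum_comm]
    simp [← Finset.sum_mul, hc]
  simp only [Pi.smul_apply, nsmul_eq_mul, ← Finset.mul_sum] at this
  rcases mul_eq_zero.1 this with h | h
  · exact absurd h (by exact_mod_cast hn.ne')
  · exact h

lemma kill (x : V 3 → ℤ) (h0 : ∑ w, x w = 0) (s t : ℤ) (h1 : ∑ w, al w * x w = 2 * s)
    (h2 : ∑ w, be w * x w = 2 * t) : (24 : ℕ) • x ∈ LinearMap.range (lap A).mulVecLin := by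
  refine ⟨fun k => ∑ u, Y u k * x u + s * p1 k + t * p2 k, funext fun w => ?_⟩
  simp only [Matrix.mulVecLin_apply, Matrix.mulVec, dotProduct, mul_add, Finset.sum_add_distrib]
  have a : ∑ k, lap A w k * ∑ u, Y u k * x u = ∑ u, (∑ k, lap A w k * Y u k) * x u := by
    simp only [Finset.mul_sum, Finset.sum_mul]
    rw [Finset.sum_comm]
    simp only [mul_assoc]
  have b : ∑ k, lap A w k * (s * p1 k) = s * (48 * E1 w) := by
    rw [← (hp w).1, Finset.mul_sum]; exact Finset.sum_congr rfl fun _ _ => by ring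
  have c : ∑ k, lap A w k * (t * p2 k) = t * (48 * E2 w) := by
    rw [← (hp w).2, Finset.mul_sum]; exact Finset.sum_congr rfl fun _ _ => by ring
  have d : ∑ u, (∑ k, lap A w k * Y u k) * x u = 24 * x w - 24 * e0 w * ∑ u, x u -
      24 * E1 w * ∑ u, al u * x u - 24 * E2 w * ∑ u, be u * x u := by
    have : 24 * x w = ∑ u, 24 * (if w = u then 1 else 0) * x u := by simp
    rw [this]
    simp only [hI, Finset.mul_sum, ← Finset.sum_sub_distrib]
    exact Finset.sum_congr rfl fun _ _ => by ring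
  rw [a, b, c, d, h0, h1, h2]
  simp only [Pi.smul_apply, nsmul_eq_mul]
  push_cast
  ring

lemma zt (u : V 3) : (Submodule.Quotient.mk (z u) : Coker B) ∈ AddCommGroup.torsion (Coker B) := by
  refine isOfFinAddOrder_iff_nsmul_eq_zero.2 ⟨48, by norm_num, ?_⟩
  rw [← Submodule.Quotient.mk_smul, Submodule.Quotient.mk_eq_zero]
  refine ⟨Z u, funext fun w => ?_⟩
  simp only [Matrix.mulVecLin_apply, Matrix.mulVec, dotProduct, hZ, Pi.smul_apply, nsmul_eq_mul]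
  norm_num

lemma noniso : IsEmpty (K A ≃+ K B) := by
  refine ⟨fun φ => ?_⟩
  have hx : ∀ u, ∃ x : V 3 → ℤ, (Submodule.Quotient.mk x : Coker A) = (φ.symm ⟨_, zt u⟩).1 :=
    fun u => Submodule.Quotient.mk_surjective _ _
  choose x hx using hx
  obtain ⟨u, u', hne, e⟩ := Fintype.exists_ne_map_eq_of_card_lt
    (fun u => (((∑ w, al w * x u w : ℤ) : ZMod 2), ((∑ w, be w * x u w : ℤ) : ZMod 2))) (by simp)
  obtain ⟨e1, e2⟩ := Prod.mk.inj e
  obtain ⟨s, hs⟩ := (ZMod.intCast_eq_intCast_iff_dvd_sub _ _ _).1 e1.symm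
  obtain ⟨t, ht⟩ := (ZMod.intCast_eq_intCast_iff_dvd_sub _ _ _).1 e2.symm
  have h0 : ∀ u, ∑ w, x u w = 0 := fun u => sum0 _ (by rw [hx]; exact (φ.symm ⟨_, zt u⟩).2)
  have k := kill (x u - x u') (by simp [Finset.sum_sub_distrib, h0]) s t
    (by simpa [mul_sub, Finset.sum_sub_distrib] using hs)
    (by simpa [mul_sub, Finset.sum_sub_distrib] using ht)
  rw [← Submodule.Quotient.mk_eq_zero, Submodule.Quotient.mk_smul, Submodule.Quotient.mk_sub,
    hx, hx] at k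
  have k2 : (24 : ℕ) • (φ.symm ⟨_, zt u⟩ - φ.symm ⟨_, zt u'⟩) = 0 := Subtype.ext k
  rw [← map_sub, ← map_nsmul, AddEquiv.map_eq_zero_iff] at k2
  have k3 : (24 : ℕ) • ((Submodule.Quotient.mk (z u) : Coker B) - Submodule.Quotient.mk (z u')) = 0 :=
    congrArg Subtype.val k2
  rw [← Submodule.Quotient.mk_sub, ← Submodule.Quotient.mk_smul,
    Submodule.Quotient.mk_eq_zero] at k3
  obtain ⟨y, hy⟩ := k3
  obtain ⟨j, hj⟩ := hz u u' hne
  apply hj
  have : ∀ w, 24 * (z u w - z u' w) = ∑ k, lap B w k * y k := by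
    intro w
    have := congrFun hy w
    simp only [Matrix.mulVecLin_apply, Matrix.mulVec, dotProduct, Pi.smul_apply, Pi.sub_apply,
      nsmul_eq_mul] at this
    rw [this]; norm_num
  simp only [this, Finset.mul_sum]
  rw [Finset.sum_comm]
  refine Finset.dvd_sum fun k _ => ?_
  simp only [← mul_assoc, ← Finset.sum_mul]
  exact (hF j k).mul_right _

lemma gen (M : List (V 3)) (h0 : 0 ∉ M) (h1 : vec 1 ∈ M) (h2 : vec 2 ∈ M) (h4 : vec 4 ∈ M) :
    IsGen M := by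
  refine ⟨h0, eq_top_iff.2 fun v _ => ?_⟩
  have : ∀ v : V 3, v = v 0 • vec 1 + v 1 • vec 2 + v 2 • vec 4 := by decide +kernel
  rw [this v]
  refine add_mem (add_mem ?_ ?_) ?_ <;>
    exact Submodule.smul_mem _ _ (Submodule.subset_span (by assumption))

theorem result :
    ∃ (r : ℕ) (M M' : List (V r)), 1 ≤ r ∧ IsGen M ∧ IsGen M' ∧ mgcd M = 1 ∧ mgcd M' = 1 ∧
      Set.range (eig M) = Set.range (eig M') ∧
      Finset.univ.val.map (eig M) = Finset.univ.val.map (eig M') ∧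
      IsEmpty (K M ≃+ K M') := by
  have hm : Finset.univ.val.map (eig A) = Finset.univ.val.map (eig B) := by decide +kernel
  refine ⟨3, A, B, by norm_num,
    gen A (by decide +kernel) (by decide +kernel) (by decide +kernel) (by decide +kernel),
    gen B (by decide +kernel) (by decide +kernel) (by decide +kernel) (by decide +kernel),
    by decide +kernel, by decide +kernel, ?_, hm, noniso⟩
  ext k
  have := congrArg (fun s => k ∈ s) hm
  simpa using this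

end Pool.Agent.Results.MP_f0ff61_co.Counter
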